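import Pool.Agent.ABY.Stmts

/-! Squad ABY, row VTH. -/

set_option autoImplicit false

open scoped BigOperators Matrix

noncomputable section

namespace Pool.Agent.ABY.H69

open Pool.Agent.LE.QF Pool.Agent.AFJ

theorem vir_zero {X : Type} [Fintype X] [DecidableEq X] {𝕜 : Type} [RCLike 𝕜]
    (M : Matrix X X 𝕜) (w : X → ℝ) (a : X) :
    vir M 0 w a = ∑ b, M a b * ((w b : ℝ) : 𝕜) := by
  have h : dg 𝕜 (0 : X → ℝ) = 0 := by
    unfold dg
    ext i j
    simp [Matrix.diagonal]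
  unfold vir TT
  rw [h, mul_zero, sub_zero, inv_one, Matrix.one_mulVec]
  rfl

theorem vth : VthStmt := by
  intro X _ _ G w g R θ h a ha
  have e0 : vir (KK G) 0 w a = ∑ b, KK G a b * w b := vir_zero (KK G) w a
  have e1 : vir (BB G) 0 w a = ∑ b, BB G a b * ((w b : ℝ) : ℂ) := vir_zero (BB G) w a
  have h1 : ‖∑ b, BB G a b * ((w b : ℝ) : ℂ)‖ + ∑ b, KK G a b * w b ≤ (1 + θ) * g a := by
    have h0 := h a ha
    rw [e0, e1] at h0
    exact h0
  have h2 : (∑ b, BB G a b * ((w b : ℝ) : ℂ)).re ≤ ‖∑ b, BB G a b * ((w b : ℝ) : ℂ)‖ :=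
    Complex.re_le_norm _
  have h3 : (∑ b, BB G a b * ((w b : ℝ) : ℂ)).re + ∑ b, KK G a b * w b =
      2 * ∑ b, w b * (G a b).re ^ 2 := by
    rw [Complex.re_sum, ← Finset.sum_add_distrib, Finset.mul_sum]
    refine Finset.sum_congr rfl fun b _ => ?_
    have e1 : BB G a b = G a b ^ 2 := by
      simp [BB, pow_two]
    have e2 : KK G a b = (G a b).re ^ 2 + (G a b).im ^ 2 := by
      have : KK G a b = ‖G a b‖ ^ 2 := by simp [KK]
      rw [this, Complex.sq_norm, Complex.normSq_apply]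
      ring
    rw [e1, e2, Complex.mul_re, Complex.ofReal_re, Complex.ofReal_im, pow_two (G a b),
      Complex.mul_re]
    ring
  linarith

end Pool.Agent.ABY.H69
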